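import Mathlib
import Pool.Agent.Helper292.ForceCH
import Pool.Agent.Results.MP_820435_lc.NeverProvableAbove
import Pool.Agent.TH769.CohenPath

/-!
# MP_46bbfb_lc: infinite paths or full independent sets on `ω₁ ^ (ω + 2)`

The statement of Q1 fails under CH, and holds if `2 ^ ω₁` is not a union of `ℵ₁` nowhere dense sets
(so in every extension by `ℵ₂` Cohen reals, and under `MA_{ℵ₁}`).  More generally a limit ordinal
`α` has property P as soon as `2 ^ α` is not a union of `|α|` nowhere dense sets.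
-/

set_option autoImplicit false

namespace Pool.Agent.Results.MP_46bbfb_lc.Independence

open Cardinal Ordinal Set

/-- Property P of the ordinal `α`: every graph on `α` (realised as the well-ordered type
`α.ToType` of order type `α`) contains an infinite path (an injective sequence of vertices,
consecutive ones adjacent) or an independent set of order type `α`. -/
def PropP (α : Ordinal.{0}) : Prop :=
  ∀ G : SimpleGraph α.ToType,
    (∃ v : ℕ → α.ToType, Function.Injective v ∧ ∀ n, G.Adj (v n) (v (n + 1))) ∨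
    ∃ S : Set α.ToType, G.IsIndepSet S ∧ Ordinal.type (fun a b : S => a < b) = α

/-- Baire category for the Cantor cube `2 ^ V` (product topology) and `|V|` sets: the cube is not
the union of at most `|V|` nowhere dense sets. -/
def NotCovered (V : Type) : Prop :=
  ∀ 𝒩 : Set (Set (V → Bool)), #𝒩 ≤ #V → (∀ N ∈ 𝒩, IsNowhereDense N) → ⋃₀ 𝒩 ≠ Set.univ

theorem propP_of_finBaire (α : Ordinal.{0}) (hα : Order.IsSuccLimit α)
    (hB : Pool.Agent.TH769.CohenPath.FinBaire α.ToType) : PropP α := by
  intro G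
  by_cases hG : ∃ v : ℕ → α.ToType, Function.Injective v ∧ ∀ n, G.Adj (v n) (v (n + 1))
  · exact Or.inl hG
  · exact Or.inr (Pool.Agent.TH769.CohenPath.main α hα hB G hG)

theorem not_propP (hCH : Cardinal.aleph 1 = Cardinal.continuum.{0}) (α : Ordinal.{0})
    (h1 : Ordinal.omega 1 ^ (Ordinal.omega0 + 2) ≤ α) (h2 : α < Ordinal.omega 2) : ¬ PropP α := by
  intro hP
  have h := Pool.Agent.Results.MP_820435_lc.NeverProvableAbove.result α h1 h2 (by
    intro K hK
    let G : SimpleGraph α.ToType :=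
      { Adj := fun x y => x ≠ y ∧ K x y
        symm := ⟨fun x y h => ⟨h.1.symm, hK _ _ h.2⟩⟩
        loopless := ⟨fun x h => h.1 rfl⟩ }
    rcases hP G with ⟨v, hv1, hv2⟩ | ⟨S, hS1, hS2⟩
    · exact Or.inr ⟨v, hv1, fun n => (hv2 n).2⟩
    · exact Or.inl ⟨S, fun x hx y hy hxy hk => hS1 hx hy hxy ⟨hxy, hk⟩, hS2⟩)
  rw [hCH] at h
  exact lt_irrefl _ h

theorem propP_below (hB : NotCovered (Ordinal.omega 1 : Ordinal.{0}).ToType) (α : Ordinal.{0})
    (hα : Order.IsSuccLimit α) (h2 : α < Ordinal.omega 2) : PropP α := by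
  refine propP_of_finBaire α hα ?_
  rcases le_or_gt (#α.ToType) ℵ₀ with hle | hgt
  · exact Pool.Agent.TH769.CohenPath.finBaire_of_countable hle
  · have h3 : #α.ToType = aleph 1 := by
      refine le_antisymm ?_ ?_
      · rw [Cardinal.mk_toType]
        rw [← Cardinal.ord_aleph, Cardinal.lt_ord] at h2
        rw [← Order.lt_succ_iff, Cardinal.succ_aleph, one_add_one_eq_two]
        exact h2
      · rw [← Cardinal.succ_aleph0]
        exact Order.succ_le_of_lt hgt
    have h4 : #(Ordinal.omega 1 : Ordinal.{0}).ToType = aleph 1 := by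
      rw [Cardinal.mk_toType, Ordinal.card_omega]
    obtain ⟨e⟩ := Cardinal.eq.1 (h4.trans h3.symm)
    exact (Pool.Agent.TH769.CohenPath.BaireCube.finBaire hB).congr e

theorem limit_power : Order.IsSuccLimit (Ordinal.omega 1 ^ (Ordinal.omega0 + 2) : Ordinal.{0}) := by
  refine Ordinal.isSuccLimit_opow_left (isSuccLimit_omega 1) ?_
  have : (0 : Ordinal.{0}) < Ordinal.omega0 + 2 := Ordinal.omega0_pos.trans_le le_self_add
  exact this.ne'

theorem power_lt : (Ordinal.omega 1 ^ (Ordinal.omega0 + 2) : Ordinal.{0}) < Ordinal.omega 2 := by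
  have h2 : (aleph 2 : Cardinal.{0}) = Order.succ (aleph 1) := by
    rw [Cardinal.succ_aleph, one_add_one_eq_two]
  rw [← Cardinal.ord_aleph 2, Cardinal.lt_ord, h2, Order.lt_succ_iff]
  refine (Ordinal.card_opow_le _ _).trans (max_le (aleph0_le_aleph 1) (max_le ?_ ?_))
  · rw [Ordinal.card_omega]
  · rw [Ordinal.card_add, Ordinal.card_omega0]
    have h3 : (2 : Ordinal.{0}).card ≤ ℵ₀ := by
      have : ((2 : ℕ) : Ordinal.{0}).card = 2 := by rw [Ordinal.card_nat]; rfl
      rw [show (2 : Ordinal.{0}) = ((2 : ℕ) : Ordinal.{0}) by norm_num, this]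
      exact (Cardinal.nat_lt_aleph0 2).le
    exact (Cardinal.add_le_of_le le_rfl le_rfl h3).trans (aleph0_le_aleph 1)

/-- **Independence of Q1.**
(1) CH can be forced: there is a forcing notion every condition of which forces that `ω₁` is
preserved and that CH holds.
(2) Under CH, the statement of Q1 fails for `ω₁ ^ (ω + 2)`, and for all larger ordinals below `ω₂`.
(3) If the Cantor cube `2 ^ ω₁` is not a union of `ℵ₁` nowhere dense sets, then the statement of Q1
holds for `ω₁ ^ (ω + 2)`, and for all limit ordinals below `ω₂`.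
(4) Every limit ordinal `α`, such that the Cantor cube `2 ^ α` is not a union of `|α|` nowhere dense
sets, has property P. -/
theorem result :
    (∃ (P : Type) (_ : Preorder P), Nonempty P ∧ ∀ p : P,
      p ∈ Pool.Agent.Helper292.ForceCH.OmegaOnePreserved P ∧
      p ∈ Pool.Agent.Helper292.ForceCH.CHHolds P) ∧
    (Cardinal.aleph 1 = Cardinal.continuum.{0} →
      ¬ PropP (Ordinal.omega 1 ^ (Ordinal.omega0 + 2)) ∧
      ∀ α : Ordinal.{0}, Ordinal.omega 1 ^ (Ordinal.omega0 + 2) ≤ α → α < Ordinal.omega 2 →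
        ¬ PropP α) ∧
    (NotCovered (Ordinal.omega 1 : Ordinal.{0}).ToType →
      PropP (Ordinal.omega 1 ^ (Ordinal.omega0 + 2)) ∧
      ∀ α : Ordinal.{0}, Order.IsSuccLimit α → α < Ordinal.omega 2 → PropP α) ∧
    (∀ α : Ordinal.{0}, Order.IsSuccLimit α → NotCovered α.ToType → PropP α) := by
  refine ⟨?_, fun hCH => ⟨not_propP hCH _ le_rfl power_lt, fun α h1 h2 => not_propP hCH α h1 h2⟩,
    fun hB => ⟨propP_below hB _ limit_power power_lt, fun α h1 h2 => propP_below hB α h1 h2⟩,
    fun α h1 h2 => propP_of_finBaire α h1 (Pool.Agent.TH769.CohenPath.BaireCube.finBaire h2)⟩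
  obtain ⟨P, i, h1, h2⟩ := Pool.Agent.Helper292.ForceCH.exists_forcing
  exact ⟨P, i, h1, fun p => ⟨(h2 p).1, (h2 p).2.2⟩⟩

end Pool.Agent.Results.MP_46bbfb_lc.Independence
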